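import Pool.Agent.Helper81.C9.Defs

/-!
Project LT (MP_b8862a_ag), block C9-FF: the contraction with a family of matrices.
-/

set_option linter.unusedSectionVars false
set_option linter.unusedVariables false

open Matrix Module MH

namespace C9


section fam

variable {n : Type*} [Fintype n] [DecidableEq n] {m : Type*} [Fintype m] [DecidableEq m]

private theorem ff_apply85 (M : Matrix m m ℚ) (L : m → Matrix n n ℚ) (Y : Matrix n n ℂ) :
    FF M L Y = ∑ a, ∑ b, (toC M a b * (toC (L a) * Y).trace) • toC (L b) := rfl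

private theorem shiftL85 {V : Type*} [AddCommGroup V] [Module ℂ V] (N D : Matrix m m ℂ) (T : m → ℂ) (v : m → V) :
    ∑ a, ∑ b, (N a b * ∑ c, D c a * T c) • v b = ∑ a, ∑ b, ((D * N) a b * T a) • v b := by
  have h1 : ∀ a b, (N a b * ∑ c, D c a * T c) • v b = ∑ c, (D c a * N a b * T c) • v b := by
    intro a b
    rw [Finset.mul_sum, Finset.sum_smul]
    refine Finset.sum_congr rfl fun c _ => ?_
    congr 1
    ring
  have h2 : ∀ c b, ((D * N) c b * T c) • v b = ∑ a, (D c a * N a b * T c) • v b := by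
    intro c b
    rw [Matrix.mul_apply, Finset.sum_mul, Finset.sum_smul]
  simp only [h1, h2]
  calc ∑ a, ∑ b, ∑ c, (D c a * N a b * T c) • v b
      = ∑ a, ∑ c, ∑ b, (D c a * N a b * T c) • v b := Finset.sum_congr rfl fun a _ => Finset.sum_comm
    _ = ∑ c, ∑ a, ∑ b, (D c a * N a b * T c) • v b := Finset.sum_comm
    _ = ∑ c, ∑ b, ∑ a, (D c a * N a b * T c) • v b := Finset.sum_congr rfl fun c _ => Finset.sum_comm

private theorem shiftR85 {V : Type*} [AddCommGroup V] [Module ℂ V] (N D : Matrix m m ℂ) (T : m → ℂ) (v : m → V) :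
    ∑ a, ∑ b, (N a b * T a) • ∑ c, D c b • v c = ∑ a, ∑ b, ((N * Dᵀ) a b * T a) • v b := by
  refine Finset.sum_congr rfl fun a _ => ?_
  have h2 : ∀ c, ((N * Dᵀ) a c * T a) • v c = ∑ b, (N a b * D c b * T a) • v c := by
    intro c
    rw [Matrix.mul_apply, Finset.sum_mul, Finset.sum_smul]
    rfl
  simp only [h2, Finset.smul_sum]
  rw [Finset.sum_comm]
  refine Finset.sum_congr rfl fun c _ => Finset.sum_congr rfl fun b _ => ?_
  rw [smul_smul]
  congr 1
  ring

private theorem toC_smul85 (c : ℚ) (A : Matrix n n ℚ) : toC (c • A) = (c : ℂ) • toC A := by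
  ext i j
  simp [toC]

private theorem toC_sum85 {ι : Type*} (s : Finset ι) (f : ι → Matrix n n ℚ) : toC (∑ i ∈ s, f i) = ∑ i ∈ s, toC (f i) := by
  ext i j
  simp [toC, Matrix.sum_apply]

private theorem toC_trace85 (A : Matrix n n ℚ) : (toC A).trace = ((A.trace : ℚ) : ℂ) := by
  simp [toC, Matrix.trace]

/-- BLOCK FF1 -/
theorem FF_rat (M : Matrix m m ℚ) (L : m → Matrix n n ℚ) (A : Matrix n n ℚ) : ∃ B, FF M L (toC A) = toC B := by
  refine ⟨∑ a, ∑ b, (M a b * (L a * A).trace) • L b, ?_⟩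
  rw [ff_apply85, toC_sum85]
  refine Finset.sum_congr rfl fun a _ => ?_
  rw [toC_sum85]
  refine Finset.sum_congr rfl fun b _ => ?_
  rw [toC_smul85, ← toC_mul, toC_trace85]
  simp [toC]

/-- BLOCK FF2 -/
theorem FF_br {M : Matrix m m ℚ} {L : m → Matrix n n ℚ} {X : Matrix n n ℂ} (Dt : Matrix m m ℂ)
    (h1 : ∀ a, X * toC (L a) - toC (L a) * X = ∑ c, Dt c a • toC (L c)) (h2 : Dt * toC M + toC M * Dtᵀ = 0)
    (Y : Matrix n n ℂ) : FF M L (X * Y - Y * X) = X * FF M L Y - FF M L Y * X := by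
  have h3 : ∀ a, (toC (L a) * (X * Y - Y * X)).trace = -∑ c, Dt c a * (toC (L c) * Y).trace := by
    intro a
    have h4 : (toC (L a) * (X * Y - Y * X)).trace = -((X * toC (L a) - toC (L a) * X) * Y).trace := by
      rw [Matrix.mul_sub, Matrix.sub_mul, Matrix.trace_sub, Matrix.trace_sub, ← Matrix.mul_assoc, ← Matrix.mul_assoc,
        Matrix.trace_mul_comm (toC (L a) * Y) X, ← Matrix.mul_assoc]
      ring
    rw [h4, h1, Finset.sum_mul, Matrix.trace_sum]
    congr 1
    refine Finset.sum_congr rfl fun c _ => ?_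
    rw [Matrix.smul_mul, Matrix.trace_smul, smul_eq_mul]
  have h5 : X * FF M L Y - FF M L Y * X =
      ∑ a, ∑ b, (toC M a b * (toC (L a) * Y).trace) • ∑ c, Dt c b • toC (L c) := by
    rw [ff_apply85]
    simp only [← h1, Finset.mul_sum, Finset.sum_mul, ← Finset.sum_sub_distrib, Matrix.mul_smul, Matrix.smul_mul,
      smul_sub]
  rw [h5, shiftR85, ff_apply85]
  simp only [h3, mul_neg, neg_smul, Finset.sum_neg_distrib]
  rw [shiftL85, ← Finset.sum_neg_distrib]
  refine Finset.sum_congr rfl fun a _ => ?_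
  rw [← Finset.sum_neg_distrib]
  refine Finset.sum_congr rfl fun b _ => ?_
  rw [← neg_smul]
  congr 1
  have h6 : (Dt * toC M) a b + (toC M * Dtᵀ) a b = 0 := by
    rw [← Matrix.add_apply, h2, Matrix.zero_apply]
  linear_combination (-(toC (L a) * Y).trace) * h6

/-- BLOCK FF3 -/
theorem FF_conj {M : Matrix m m ℚ} {L : m → Matrix n n ℚ} {S : Matrix n n ℚ} (hS : S * S = 1) (St : Matrix m m ℚ)
    (h1 : ∀ a, S * L a * S = ∑ c, St c a • L c) (h2 : St * M = M * Stᵀ) (h3 : St * St = 1) (Y : Matrix n n ℂ) :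
    FF M L (toC S * Y * toC S) = toC S * FF M L Y * toC S := by
  have h4 : ∀ a, toC S * toC (L a) * toC S = ∑ c, toC St c a • toC (L c) := by
    intro a
    rw [← toC_mul, ← toC_mul, h1, toC_sum85]
    exact Finset.sum_congr rfl fun c _ => toC_smul85 _ _
  have h5 : ∀ a, (toC (L a) * (toC S * Y * toC S)).trace = ∑ c, toC St c a * (toC (L c) * Y).trace := by
    intro a
    rw [← Matrix.mul_assoc, Matrix.trace_mul_comm, ← Matrix.mul_assoc, ← Matrix.mul_assoc, h4,
      Finset.sum_mul, Matrix.trace_sum]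
    refine Finset.sum_congr rfl fun c _ => ?_
    rw [Matrix.smul_mul, Matrix.trace_smul, smul_eq_mul]
  have h6 : toC S * FF M L Y * toC S =
      ∑ a, ∑ b, (toC M a b * (toC (L a) * Y).trace) • ∑ c, toC St c b • toC (L c) := by
    rw [ff_apply85]
    simp only [← h4, Finset.mul_sum, Finset.sum_mul, Matrix.mul_smul, Matrix.smul_mul]
  rw [h6, shiftR85, ff_apply85]
  simp only [h5]
  rw [shiftL85, ← toC_mul, h2, toC_mul, toC_transpose]

/-- BLOCK FF4 -/
theorem FF_rank (M : Matrix m m ℚ) (L : m → Matrix n n ℚ) : finrank ℂ (LinearMap.range (FF M L)) ≤ Fintype.card m := by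
  have h1 : LinearMap.range (FF M L) ≤ Submodule.span ℂ (Set.range fun b => toC (L b)) := by
    rintro _ ⟨Y, rfl⟩
    rw [ff_apply85]
    exact Submodule.sum_mem _ fun a _ => Submodule.sum_mem _ fun b _ =>
      Submodule.smul_mem _ _ (Submodule.subset_span ⟨b, rfl⟩)
  exact (Submodule.finrank_mono h1).trans (finrank_range_le_card _)

end fam

end C9
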